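import Pool.Agent.W438.TW.RS3

set_option autoImplicit false

open Complex Filter Topology Set MeasureTheory UpperHalfPlane MatrixGroups CongruenceSubgroup
open W388

namespace Pool.Agent.W438.TW

lemma measurable_eisG (h2 : StEisPairs) (N : ℕ) [NeZero N] (s : ℝ) : Measurable (EisG N s) := by
  have : EisG N s = fun z : ℍ => ∑' p : {p : ℤ × ℤ // IsCoprime p.1 p.2 ∧ (N : ℤ) ∣ p.1},
    ENNReal.ofReal ((z.im / ‖(p.1.1 : ℂ) * (z : ℂ) + (p.1.2 : ℂ)‖ ^ 2) ^ s) := by
    funext z; exact h2 N s z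
  rw [this]
  refine Measurable.tsum fun p => ?_
  apply ENNReal.measurable_ofReal.comp
  apply Measurable.pow_const
  have h3 := measurable_im
  have h4 : Measurable (fun z : ℍ => (z : ℂ)) := measurable_coe
  fun_prop

lemma lamf_sq {N : ℕ} {k : ℤ} (f : CuspForm (Gamma0 N : Subgroup (GL (Fin 2) ℝ)) k)
    (hreal : ∀ n, ((qExpansion 1 f).coeff n).im = 0) (hk : 1 ≤ k) (σ : ℝ) (hσ : 0 < σ) (n : ℕ) :
    lamf f n ^ 2 * (n : ℝ) ^ (-(1 + σ)) =
      ‖(qExpansion 1 f).coeff n‖ ^ 2 * (n : ℝ) ^ (-((k : ℝ) + σ)) := by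
  have hk' : (1 : ℝ) ≤ k := by exact_mod_cast hk
  rcases Nat.eq_zero_or_pos n with rfl | hn
  · rw [Nat.cast_zero, Real.zero_rpow (by linarith), Real.zero_rpow (by linarith)]
    simp
  · have hn' : (0 : ℝ) < n := by exact_mod_cast hn
    have hnorm : ‖(qExpansion 1 f).coeff n‖ ^ 2 = ((qExpansion 1 f).coeff n).re ^ 2 := by
      rw [← Complex.normSq_eq_norm_sq, Complex.normSq_apply, hreal n]
      ring
    unfold lamf
    rw [hnorm, div_pow, ← Real.rpow_natCast ((n : ℝ) ^ (((k : ℝ) - 1) / 2)) 2,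
      ← Real.rpow_mul hn'.le, div_mul_eq_mul_div, mul_div_assoc, ← Real.rpow_sub hn']
    congr 2
    push_cast
    ring

theorem t_rs (h1 : W388.StUnfold) (h2 : W388.StEisPairs) (h3 : W388.StEisLim) (h4 : W388.StEisBd)
    (h5 : W388.StCusp) (h6 : W388.StPars) : W388.StRS := by
  intro N _ k hk f ε hf
  classical
  have hk' : (1 : ℝ) ≤ k := by exact_mod_cast hk
  obtain ⟨κ, hκ, hlim⟩ := h3 N
  have hfin : ∀ z : ℍ, ∀ σ : ℝ, 0 < σ → EisG N (1 + σ) z =
      ENNReal.ofReal (∑' p : {p : ℤ × ℤ // IsCoprime p.1 p.2 ∧ (N : ℤ) ∣ p.1},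
        (z.im / ‖(p.1.1 : ℂ) * (z : ℂ) + (p.1.2 : ℂ)‖ ^ 2) ^ (1 + σ)) := by
    intro z σ hσ
    have hz := z.im_pos
    rw [h2 N (1 + σ) z, ENNReal.ofReal_tsum_of_nonneg (fun p => by positivity) ((hlim z).1 σ hσ)]
  have hE2 : ∀ z : ℍ, EisG N 2 z ≠ 0 ∧ EisG N 2 z ≠ ⊤ := by
    intro z
    have hz := z.im_pos
    constructor
    · have := eisG_ge h2 N z
      intro h0
      rw [h0] at this
      have h7 : (0 : ℝ) < z.im ^ (2 : ℝ) := by positivity
      have h8 : 0 < ENNReal.ofReal (z.im ^ (2 : ℝ)) := ENNReal.ofReal_pos.2 h7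
      exact absurd this (not_le.2 h8)
    · have := hfin z 1 one_pos
      rw [show (1 : ℝ) + 1 = 2 by norm_num] at this
      rw [this]
      exact ENNReal.ofReal_ne_top
  let I : ℝ → ENNReal := fun σ => ∫⁻ z : ℍ, strip z * (phi f z * ENNReal.ofReal (z.im ^ (1 + σ)))
  let g : ℝ → ℝ := fun σ => Real.Gamma (k + σ) / (4 * Real.pi) ^ ((k : ℝ) + σ)
  let S : ℝ → ENNReal := fun σ =>
    ∑' n : ℕ, ENNReal.ofReal (lamf f n ^ 2 * (n : ℝ) ^ (-(1 + σ)))
  have hg : ∀ σ : ℝ, 0 ≤ σ → 0 < g σ := by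
    intro σ hσ
    have : 0 < Real.Gamma (k + σ) := Real.Gamma_pos_of_pos (by linarith)
    positivity
  have hI1 : ∀ σ : ℝ, 0 < σ → I σ = ENNReal.ofReal (g σ) * S σ := by
    intro σ hσ
    have := h6 N k hk f σ hσ
    refine this.trans ?_
    congr 1
    refine tsum_congr fun n => ?_
    rw [lamf_sq f hf.real hk σ hσ n]
  have hI2 : ∀ σ : ℝ, I σ = ∫⁻ z : ℍ, strip z * (phi f z * ENNReal.ofReal (z.im ^ (2 : ℝ)) *
      (EisG N (1 + σ) z / EisG N 2 z)) := fun σ =>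
    h1 N (phi f) (measurable_phi f) (fun γ hγ z => phi_smul f γ hγ z) (1 + σ) hE2
  obtain ⟨D, hD, hdom⟩ := integrand_le h2 h4 h5 N k f
  have hbfin := bound_fin D
  set B : ENNReal := ∫⁻ z : ℍ, strip z * ENNReal.ofReal (D * (z.im ^ 2 / (1 + z.im ^ 2))) with hB
  let F : ℝ → ℍ → ENNReal := fun σ z => ENNReal.ofReal σ * (strip z *
    (phi f z * ENNReal.ofReal (z.im ^ (2 : ℝ)) * (EisG N (1 + σ) z / EisG N 2 z)))
  let F0 : ℍ → ENNReal := fun z => strip z *
    (phi f z * ENNReal.ofReal (z.im ^ (2 : ℝ)) * (ENNReal.ofReal κ / EisG N 2 z))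
  have hFI : ∀ σ : ℝ, ∫⁻ z, F σ z = ENNReal.ofReal σ * I σ := by
    intro σ
    rw [hI2, ← lintegral_const_mul' _ _ ENNReal.ofReal_ne_top]
  have hmim : Measurable (fun z : ℍ => ENNReal.ofReal (z.im ^ (2 : ℝ))) :=
    ENNReal.measurable_ofReal.comp (measurable_im.pow_const _)
  have hFm : ∀ σ : ℝ, Measurable (F σ) := by
    intro σ
    refine Measurable.const_mul ?_ _
    refine measurable_strip.mul ?_
    refine ((measurable_phi f).mul hmim).mul ?_
    exact (measurable_eisG h2 N _).div (measurable_eisG h2 N _)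
  have hF0m : Measurable F0 := by
    refine measurable_strip.mul ?_
    refine ((measurable_phi f).mul hmim).mul ?_
    exact measurable_const.div (measurable_eisG h2 N _)
  have hstrip : ∀ z : ℍ, strip z ≠ ⊤ := by
    intro z; unfold strip; split_ifs <;> simp
  have hpt : ∀ z : ℍ, Tendsto (fun σ => F σ z) (𝓝[>] 0) (𝓝 (F0 z)) := by
    intro z
    have e1 : Tendsto (fun σ : ℝ => ENNReal.ofReal σ * EisG N (1 + σ) z) (𝓝[>] 0)
        (𝓝 (ENNReal.ofReal κ)) := by
      have := (ENNReal.continuous_ofReal.tendsto κ).comp (hlim z).2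
      refine this.congr' ?_
      filter_upwards [self_mem_nhdsWithin] with σ hσ
      have hσ' : (0 : ℝ) < σ := hσ
      rw [Function.comp, ENNReal.ofReal_mul hσ'.le, hfin z σ hσ']
    have hc : strip z * (phi f z * ENNReal.ofReal (z.im ^ (2 : ℝ))) * (EisG N 2 z)⁻¹ ≠ ⊤ := by
      apply ENNReal.mul_ne_top
      · exact ENNReal.mul_ne_top (hstrip z)
          (ENNReal.mul_ne_top ENNReal.ofReal_ne_top ENNReal.ofReal_ne_top)
      · exact ENNReal.inv_ne_top.2 (hE2 z).1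
    have e2 := ENNReal.Tendsto.const_mul (a := strip z * (phi f z * ENNReal.ofReal (z.im ^ (2 : ℝ))) *
      (EisG N 2 z)⁻¹) e1 (Or.inr hc)
    refine (e2.congr fun σ => ?_).trans (le_of_eq ?_)
    · simp only [F, div_eq_mul_inv]; ring
    · simp only [F0, div_eq_mul_inv]; congr 1; ring
  have hev : ∀ᶠ σ : ℝ in 𝓝[>] (0 : ℝ), 0 < σ ∧ σ ≤ 1 := by
    filter_upwards [Ioc_mem_nhdsGT (zero_lt_one' ℝ)] with σ hσ using hσ
  have hconv : Tendsto (fun σ : ℝ => ENNReal.ofReal σ * I σ) (𝓝[>] 0) (𝓝 (∫⁻ z, F0 z)) := by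
    simp_rw [← hFI]
    refine tendsto_lintegral_filter_of_dominated_convergence
      (fun z : ℍ => strip z * ENNReal.ofReal (D * (z.im ^ 2 / (1 + z.im ^ 2)))) ?_ ?_ hbfin ?_
    · exact Eventually.of_forall hFm
    · filter_upwards [hev] with σ hσ
      exact Eventually.of_forall fun z => hdom z σ hσ.1 hσ.2
    · exact Eventually.of_forall hpt
  have hIB : ∀ σ : ℝ, 0 < σ → σ ≤ 1 → ENNReal.ofReal σ * I σ ≤ B := by
    intro σ h0 h1'
    rw [← hFI]
    exact lintegral_mono fun z => hdom z σ h0 h1'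
  set J : ENNReal := ∫⁻ z, F0 z with hJ
  have hJtop : J ≠ ⊤ := by
    refine ne_top_of_le_ne_top hbfin ?_
    refine le_of_tendsto hconv ?_
    filter_upwards [hev] with σ hσ using hIB σ hσ.1 hσ.2
  have hItop : ∀ σ : ℝ, 0 < σ → σ ≤ 1 → I σ ≠ ⊤ := by
    intro σ h0 h1' htop
    have := hIB σ h0 h1'
    rw [htop, ENNReal.mul_top (by simpa using h0)] at this
    exact hbfin (top_le_iff.1 this)
  have hStop : ∀ σ : ℝ, 0 < σ → σ ≤ 1 → S σ ≠ ⊤ := by
    intro σ h0 h1' htop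
    apply hItop σ h0 h1'
    rw [hI1 σ h0, htop, ENNReal.mul_top]
    simpa using hg σ h0.le
  have hnn : ∀ (σ : ℝ) (n : ℕ), 0 ≤ lamf f n ^ 2 * (n : ℝ) ^ (-(1 + σ)) := fun σ n => by positivity
  have hsum1 : ∀ σ : ℝ, 0 < σ → σ ≤ 1 →
      Summable (fun n : ℕ => lamf f n ^ 2 * (n : ℝ) ^ (-(1 + σ))) := by
    intro σ h0 h1'
    have := ENNReal.summable_toReal (hStop σ h0 h1')
    refine this.congr fun n => ?_
    rw [ENNReal.toReal_ofReal (hnn σ n)]
  have hsum : ∀ σ : ℝ, 0 < σ → Summable (fun n : ℕ => lamf f n ^ 2 * (n : ℝ) ^ (-(1 + σ))) := by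
    intro σ h0
    rcases le_or_gt σ 1 with h | h
    · exact hsum1 σ h0 h
    · refine Summable.of_nonneg_of_le (hnn σ) (fun n => ?_) (hsum1 1 one_pos le_rfl)
      rcases Nat.eq_zero_or_pos n with rfl | hn
      · rw [Nat.cast_zero, Real.zero_rpow (by linarith), Real.zero_rpow (by norm_num)]
      · have hn' : (1 : ℝ) ≤ n := by exact_mod_cast hn
        gcongr
  refine ⟨hsum, ?_⟩
  -- positivity of the limit
  have hJ0 : J ≠ 0 := by
    intro hJ0
    have hae : F0 =ᵐ[volume] 0 := (lintegral_eq_zero_iff hF0m).1 hJ0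
    have hI10 : I 1 = 0 := by
      have : ∀ᵐ z : ℍ, strip z * (phi f z * ENNReal.ofReal (z.im ^ ((1 : ℝ) + 1))) = 0 := by
        filter_upwards [hae] with z hz
        have hz' : strip z * (phi f z * ENNReal.ofReal (z.im ^ (2 : ℝ)) *
          (ENNReal.ofReal κ / EisG N 2 z)) = 0 := hz
        have hr : ENNReal.ofReal κ / EisG N 2 z ≠ 0 := by
          rw [Ne, ENNReal.div_eq_zero_iff, not_or]
          exact ⟨by simpa using hκ, (hE2 z).2⟩
        rw [← mul_assoc, mul_eq_zero] at hz'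
        rw [show (1 : ℝ) + 1 = 2 by norm_num]
        exact hz'.resolve_right hr
      simp only [I]
      rw [lintegral_congr_ae this]
      simp
    have h9 := hI1 1 one_pos
    rw [hI10] at h9
    have h10 : S 1 = 0 := by
      have := h9.symm
      rw [mul_eq_zero] at this
      refine this.resolve_left ?_
      simpa using hg 1 zero_le_one
    have h11 : ENNReal.ofReal (lamf f 1 ^ 2 * ((1 : ℕ) : ℝ) ^ (-(1 + (1 : ℝ)))) ≤ 0 := by
      rw [← h10]
      exact ENNReal.le_tsum (f := fun n : ℕ => ENNReal.ofReal (lamf f n ^ 2 * (n : ℝ) ^ (-(1 + (1 : ℝ))))) 1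
    have h12 : lamf f 1 = 1 := by
      unfold lamf
      rw [hf.one]
      simp
    rw [h12] at h11
    simp at h11
  refine ⟨J.toReal / g 0, div_pos (ENNReal.toReal_pos hJ0 hJtop) (hg 0 le_rfl), ?_⟩
  have hgc : Tendsto g (𝓝[>] 0) (𝓝 (g 0)) := by
    have : ContinuousAt g 0 := by
      have hG : ContinuousAt (fun σ : ℝ => Real.Gamma (k + σ)) 0 := by
        have h13 : ContinuousAt Real.Gamma ((k : ℝ) + 0) := by
          apply (Real.differentiableAt_Gamma _).continuousAt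
          intro m
          have : (0 : ℝ) ≤ m := Nat.cast_nonneg m
          linarith
        exact ContinuousAt.comp (f := fun σ : ℝ => (k : ℝ) + σ) h13 (by fun_prop)
      have hP : ContinuousAt (fun σ : ℝ => (4 * Real.pi) ^ ((k : ℝ) + σ)) 0 := by
        apply ContinuousAt.rpow continuousAt_const (by fun_prop)
        left
        positivity
      exact hG.div hP (by positivity)
    exact this.tendsto.mono_left nhdsWithin_le_nhds
  have hmain : Tendsto (fun σ : ℝ => (ENNReal.ofReal σ * I σ).toReal / g σ) (𝓝[>] 0)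
      (𝓝 (J.toReal / g 0)) :=
    ((ENNReal.tendsto_toReal hJtop).comp hconv).div hgc (hg 0 le_rfl).ne'
  refine hmain.congr' ?_
  filter_upwards [hev] with σ hσ
  obtain ⟨h0, h1'⟩ := hσ
  rw [hI1 σ h0, ENNReal.toReal_mul, ENNReal.toReal_mul, ENNReal.toReal_ofReal h0.le,
    ENNReal.toReal_ofReal (hg σ h0.le).le]
  have : (S σ).toReal = ∑' n : ℕ, lamf f n ^ 2 * (n : ℝ) ^ (-(1 + σ)) := by
    simp only [S]
    rw [← ENNReal.ofReal_tsum_of_nonneg (hnn σ) (hsum σ h0),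
      ENNReal.toReal_ofReal (tsum_nonneg (hnn σ))]
  rw [this]
  have := (hg σ h0.le).ne'
  field_simp

end Pool.Agent.W438.TW
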