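import Pool.Agent.W388.TW.D0

set_option autoImplicit false

open Complex Filter Topology Set MeasureTheory UpperHalfPlane MatrixGroups CongruenceSubgroup
open W388

namespace Pool.Agent.W438.TW

/-! ### Eisenstein sums over groups -/

lemma eisG_mono (N : ℕ) (s : ℝ) (z : ℍ) : EisG N s z ≤ EisG 1 s z := by
  unfold EisG
  let F : Gamma0 1 → ENNReal := fun γ =>
    strip ((γ : SL(2, ℤ)) • z) * ENNReal.ofReal (((γ : SL(2, ℤ)) • z).im ^ s)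
  have hmem : ∀ γ : SL(2, ℤ), γ ∈ Gamma0 1 := by
    intro γ
    rw [Gamma0_mem]
    exact Subsingleton.elim _ _
  let i : Gamma0 N → Gamma0 1 := fun γ => ⟨γ, hmem γ⟩
  have hi : Function.Injective i := by
    intro a b h
    have := congrArg (fun x : Gamma0 1 => (x : SL(2, ℤ))) h
    exact Subtype.ext this
  exact ENNReal.tsum_comp_le_tsum_of_injective hi F

lemma eisG_smul (N : ℕ) (s : ℝ) (z : ℍ) (g : SL(2, ℤ)) (hg : g ∈ Gamma0 N) :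
    EisG N s (g • z) = EisG N s z := by
  unfold EisG
  let e : Gamma0 N ≃ Gamma0 N := Equiv.mulRight ⟨g, hg⟩
  rw [← e.tsum_eq (fun γ : Gamma0 N => strip ((γ : SL(2, ℤ)) • z) *
    ENNReal.ofReal (((γ : SL(2, ℤ)) • z).im ^ s))]
  refine tsum_congr fun γ => ?_
  have : ((e γ : Gamma0 N) : SL(2, ℤ)) • z = (γ : SL(2, ℤ)) • (g • z) := by
    simp [e, mul_smul]
  rw [this]

lemma eisG_one_smul (s : ℝ) (z : ℍ) (g : SL(2, ℤ)) :
    EisG 1 s (g • z) = EisG 1 s z := by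
  refine eisG_smul 1 s z g ?_
  rw [Gamma0_mem]
  exact Subsingleton.elim _ _

/-- the term of the identity -/
lemma eisG_ge (h2 : StEisPairs) (N : ℕ) [NeZero N] (z : ℍ) :
    ENNReal.ofReal (z.im ^ (2 : ℝ)) ≤ EisG N 2 z := by
  rw [h2 N 2 z]
  let p : {p : ℤ × ℤ // IsCoprime p.1 p.2 ∧ (N : ℤ) ∣ p.1} :=
    ⟨(0, 1), by simp [isCoprime_one_right], by simp⟩
  refine le_trans (le_of_eq ?_) (ENNReal.le_tsum p)
  simp [p]

lemma eisG_one_le (h2 : StEisPairs) {C : ℝ} (h4 : ∀ z : ℍ, Real.sqrt 3 / 2 ≤ z.im → |z.re| ≤ 1 / 2 →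
  1 ≤ ‖(z : ℂ)‖ → ∀ σ : ℝ, 0 < σ → σ ≤ 1 →
  ∑' p : {p : ℤ × ℤ // IsCoprime p.1 p.2},
    ENNReal.ofReal ((z.im / ‖(p.1.1 : ℂ) * (z : ℂ) + (p.1.2 : ℂ)‖ ^ 2) ^ (1 + σ)) ≤
    ENNReal.ofReal (C * z.im ^ 2 / σ)) (z : ℍ) (hz : Real.sqrt 3 / 2 ≤ z.im) (hre : |z.re| ≤ 1 / 2)
    (hn : 1 ≤ ‖(z : ℂ)‖) (σ : ℝ) (h0 : 0 < σ) (h1 : σ ≤ 1) :
    EisG 1 (1 + σ) z ≤ ENNReal.ofReal (C * z.im ^ 2 / σ) := by
  refine le_trans (le_of_eq ?_) (h4 z hz hre hn σ h0 h1)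
  rw [h2 1 (1 + σ) z]
  let e : {p : ℤ × ℤ // IsCoprime p.1 p.2 ∧ ((1 : ℕ) : ℤ) ∣ p.1} ≃
      {p : ℤ × ℤ // IsCoprime p.1 p.2} := Equiv.subtypeEquivRight (by intro p; simp)
  exact e.tsum_eq (fun p : {p : ℤ × ℤ // IsCoprime p.1 p.2} =>
    ENNReal.ofReal ((z.im / ‖(p.1.1 : ℂ) * (z : ℂ) + (p.1.2 : ℂ)‖ ^ 2) ^ (1 + σ)))

/-- heights of translates of points of the fundamental domain -/
lemma im_smul_ge (g : SL(2, ℤ)) : ∃ c : ℝ, 0 < c ∧ ∀ w : ℍ, Real.sqrt 3 / 2 ≤ w.im →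
    |w.re| ≤ 1 / 2 → c / w.im ≤ (g • w).im := by
  let a : ℝ := |((g 1 0 : ℤ) : ℝ)|
  let b : ℝ := |((g 1 1 : ℤ) : ℝ)|
  have ha : 0 ≤ a := abs_nonneg _
  have hb : 0 ≤ b := abs_nonneg _
  refine ⟨1 / (2 * a + 2 * b + 1) ^ 2, by positivity, fun w hw hr => ?_⟩
  rw [ModularGroup.im_smul_eq_div_normSq]
  have hv : 0 < w.im := w.im_pos
  have hs3 : (1 : ℝ) / 2 ≤ w.im := by
    have : (1 : ℝ) ≤ Real.sqrt 3 := by
      rw [show (1 : ℝ) = Real.sqrt 1 by simp]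
      exact Real.sqrt_le_sqrt (by norm_num)
    linarith
  have hnorm : ‖(w : ℂ)‖ ≤ 2 * w.im := by
    calc ‖(w : ℂ)‖ ≤ |(w : ℂ).re| + |(w : ℂ).im| := Complex.norm_le_abs_re_add_abs_im _
      _ ≤ 1 / 2 + w.im := by
          have h1 : |(w : ℂ).re| ≤ 1 / 2 := by simpa using hr
          have h2 : |(w : ℂ).im| = w.im := by
            simp [abs_of_pos hv]
          linarith
      _ ≤ 2 * w.im := by linarith
  have hden : ‖denom (g : GL (Fin 2) ℝ) w‖ ≤ (2 * a + 2 * b + 1) * w.im := by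
    rw [ModularGroup.denom_apply]
    calc ‖((g 1 0 : ℤ) : ℂ) * (w : ℂ) + ((g 1 1 : ℤ) : ℂ)‖
        ≤ ‖((g 1 0 : ℤ) : ℂ)‖ * ‖(w : ℂ)‖ + ‖((g 1 1 : ℤ) : ℂ)‖ := by
          refine (norm_add_le _ _).trans ?_
          rw [norm_mul]
      _ = a * ‖(w : ℂ)‖ + b := by
          simp [a, b, Complex.norm_intCast]
      _ ≤ a * (2 * w.im) + b * (2 * w.im) := by
          have : b ≤ b * (2 * w.im) := by nlinarith
          nlinarith
      _ ≤ (2 * a + 2 * b + 1) * w.im := by nlinarith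
  have hpos : 0 < Complex.normSq (denom (g : GL (Fin 2) ℝ) w) :=
    UpperHalfPlane.normSq_denom_pos _ w.im_ne_zero
  have hsq : Complex.normSq (denom (g : GL (Fin 2) ℝ) w) ≤ ((2 * a + 2 * b + 1) * w.im) ^ 2 := by
    rw [Complex.normSq_eq_norm_sq]
    gcongr
  calc 1 / (2 * a + 2 * b + 1) ^ 2 / w.im = w.im / ((2 * a + 2 * b + 1) * w.im) ^ 2 := by
        field_simp
    _ ≤ w.im / Complex.normSq (denom (g : GL (Fin 2) ℝ) w) := by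
        gcongr

/-- every point is `ρ w` with `w` in the fundamental domain, and `EisG N 2` is bounded below there -/
lemma exists_fd (h2 : StEisPairs) (N : ℕ) [NeZero N] : ∃ c : ℝ, 0 < c ∧ ∀ z : ℍ,
    ∃ (ρ : SL(2, ℤ)) (w : ℍ), z = ρ • w ∧ Real.sqrt 3 / 2 ≤ w.im ∧ |w.re| ≤ 1 / 2 ∧
      1 ≤ ‖(w : ℂ)‖ ∧ ENNReal.ofReal (c / w.im ^ 2) ≤ EisG N 2 z := by
  classical
  have : Fintype (SL(2, ℤ) ⧸ Gamma0 N) := Subgroup.fintypeQuotientOfFiniteIndex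
  choose c hc0 hc using fun q : SL(2, ℤ) ⧸ Gamma0 N => im_smul_ge (q.out)⁻¹
  obtain ⟨c0, hc00, hc0'⟩ : ∃ c0 : ℝ, 0 < c0 ∧ ∀ q, c0 ≤ c q := by
    obtain ⟨q0, hq0⟩ := Finite.exists_min c
    exact ⟨c q0, hc0 q0, hq0⟩
  refine ⟨c0 ^ 2, by positivity, fun z => ?_⟩
  obtain ⟨g, hg⟩ := ModularGroup.exists_smul_mem_fd z
  have hfd := hg
  obtain ⟨hg1, hg2⟩ := hg
  have hw3 : Real.sqrt 3 / 2 ≤ (g • z).im := by
    have := ModularGroup.three_le_four_mul_im_sq_of_mem_fd hfd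
    have hp : 0 < (g • z).im := (g • z).im_pos
    have h3 : Real.sqrt 3 ≤ 2 * (g • z).im := by
      rw [show (2 : ℝ) * (g • z).im = Real.sqrt ((2 * (g • z).im) ^ 2) by
        rw [Real.sqrt_sq (by positivity)]]
      apply Real.sqrt_le_sqrt
      nlinarith
    linarith
  refine ⟨g⁻¹, g • z, by simp, hw3, hg2, ?_, ?_⟩
  · have : 1 ≤ ‖((g • z : ℍ) : ℂ)‖ ^ 2 := by
      rw [← Complex.normSq_eq_norm_sq]; exact hg1
    nlinarith [norm_nonneg ((g • z : ℍ) : ℂ)]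
  · -- coset of g
    set q : SL(2, ℤ) ⧸ Gamma0 N := (g : SL(2, ℤ) ⧸ Gamma0 N) with hq
    have hmem : (q.out)⁻¹ * g ∈ Gamma0 N := by
      rw [← QuotientGroup.eq]
      rw [QuotientGroup.out_eq']
    have hz : EisG N 2 z = EisG N 2 ((q.out)⁻¹ • (g • z)) := by
      rw [← mul_smul]
      exact (eisG_smul N 2 z _ hmem).symm
    rw [hz]
    refine le_trans ?_ (eisG_ge h2 N _)
    apply ENNReal.ofReal_le_ofReal
    have h5 := hc q (g • z) hw3 hg2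
    have hp : 0 < (g • z).im := (g • z).im_pos
    have h6 : c0 / (g • z).im ≤ ((q.out)⁻¹ • (g • z)).im := by
      refine le_trans ?_ h5
      gcongr
      exact hc0' q
    rw [show ((2 : ℝ)) = ((2 : ℕ) : ℝ) by norm_num, Real.rpow_natCast, ← div_pow]
    gcongr

end Pool.Agent.W438.TW
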