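import Pool.Agent.W438.TW.RS

set_option autoImplicit false

open Complex Filter Topology Set MeasureTheory UpperHalfPlane MatrixGroups CongruenceSubgroup
open W388

namespace Pool.Agent.W438.TW

lemma measurable_strip : Measurable strip := by
  unfold strip
  refine Measurable.ite ?_ measurable_const measurable_const
  have h : Measurable (fun z : ℍ => z.re) := UpperHalfPlane.continuous_re.measurable
  exact (measurableSet_le measurable_const h).inter (measurableSet_lt h measurable_const)

lemma measurable_im : Measurable (fun z : ℍ => z.im) := UpperHalfPlane.continuous_im.measurable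

/-- the dominating function has a finite integral -/
lemma bound_fin (D : ℝ) : ∫⁻ z : ℍ, strip z * ENNReal.ofReal (D * (z.im ^ 2 / (1 + z.im ^ 2))) ≠ ⊤ := by
  wlog hD : 0 ≤ D generalizing D
  · have : ∀ z : ℍ, strip z * ENNReal.ofReal (D * (z.im ^ 2 / (1 + z.im ^ 2))) = 0 := by
      intro z
      rw [ENNReal.ofReal_of_nonpos, mul_zero]
      exact mul_nonpos_of_nonpos_of_nonneg (by linarith) (by positivity)
    simp [this]
  let h : ℂ → ENNReal := fun w => (Set.Ico (0 : ℝ) 1).indicator 1 w.re *
    ENNReal.ofReal (D * (1 + w.im ^ 2)⁻¹)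
  have hmeas : Measurable (fun z : ℍ => strip z * ENNReal.ofReal (D * (z.im ^ 2 / (1 + z.im ^ 2)))) := by
    refine measurable_strip.mul ?_
    apply ENNReal.measurable_ofReal.comp
    have := measurable_im
    fun_prop
  have hdens : Measurable (fun z : ℍ => (((1 / NNReal.mk z.im z.im_pos.le : NNReal) ^ 2 : NNReal) : ENNReal)) := by
    apply Measurable.coe_nnreal_ennreal
    apply Measurable.pow_const
    apply Measurable.const_div
    exact Measurable.subtype_mk measurable_im
  have e1 : ∫⁻ z : ℍ, strip z * ENNReal.ofReal (D * (z.im ^ 2 / (1 + z.im ^ 2))) =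
      ∫⁻ z : ℍ, h (z : ℂ) ∂(volume.comap UpperHalfPlane.coe) := by
    rw [UpperHalfPlane.volume_def, lintegral_withDensity_eq_lintegral_mul _ hdens hmeas]
    refine lintegral_congr fun z => ?_
    have hp : 0 < z.im := z.im_pos
    have hd : (((1 / NNReal.mk z.im z.im_pos.le : NNReal) ^ 2 : NNReal) : ENNReal) =
        ENNReal.ofReal (1 / z.im ^ 2) := by
      rw [ENNReal.ofReal, ENNReal.coe_inj]
      apply NNReal.eq
      rw [Real.coe_toNNReal _ (by positivity)]
      simp
    simp only [Pi.mul_apply]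
    rw [hd]
    simp only [h, strip]
    by_cases hs : 0 ≤ z.re ∧ z.re < 1
    · rw [if_pos hs, Set.indicator_of_mem (by simpa using hs)]
      rw [one_mul, Pi.one_apply, one_mul, ← ENNReal.ofReal_mul (by positivity)]
      congr 1
      rw [UpperHalfPlane.coe_im]
      field_simp
    · rw [if_neg hs, Set.indicator_of_notMem (by simpa using hs)]
      simp
  rw [e1]
  have e2 : ∫⁻ z : ℍ, h (z : ℂ) ∂(volume.comap UpperHalfPlane.coe) ≤ ∫⁻ w : ℂ, h w := by
    rw [← measurableEmbedding_coe.lintegral_map, measurableEmbedding_coe.map_comap]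
    exact setLIntegral_le_lintegral _ _
  refine ne_top_of_le_ne_top ?_ e2
  rw [← (Complex.volume_preserving_equiv_real_prod.symm).lintegral_comp_emb
    (Complex.measurableEquivRealProd.symm).measurableEmbedding]
  have e3 : ∀ p : ℝ × ℝ, h (Complex.measurableEquivRealProd.symm p) =
      (Set.Ico (0 : ℝ) 1).indicator 1 p.1 * ENNReal.ofReal (D * (1 + p.2 ^ 2)⁻¹) := by
    intro p
    simp [h, Complex.measurableEquivRealProd]
  simp_rw [e3]
  rw [Measure.volume_eq_prod, lintegral_prod_mul (f := (Set.Ico (0 : ℝ) 1).indicator 1)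
    (g := fun y : ℝ => ENNReal.ofReal (D * (1 + y ^ 2)⁻¹))]
  · apply ENNReal.mul_ne_top
    · rw [lintegral_indicator_one measurableSet_Ico]
      simp
    · have : Integrable (fun x : ℝ => D * (1 + x ^ 2)⁻¹) := integrable_inv_one_add_sq.const_mul D
      have h2 := this.hasFiniteIntegral
      rw [hasFiniteIntegral_iff_ofReal (Filter.Eventually.of_forall fun x => by positivity)] at h2
      exact h2.ne
  · exact (measurable_one.indicator measurableSet_Ico).aemeasurable
  · apply Measurable.aemeasurable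
    fun_prop

lemma cont_cusp {N : ℕ} {k : ℤ} (f : CuspForm (Gamma0 N : Subgroup (GL (Fin 2) ℝ)) k) :
    Continuous (f : ℍ → ℂ) :=
  (ModularFormClass.holo f).continuous

/-- `|f|² y^k` as an `ENNReal`-valued function -/
noncomputable def phi {N : ℕ} {k : ℤ} (f : CuspForm (Gamma0 N : Subgroup (GL (Fin 2) ℝ)) k)
    (z : ℍ) : ENNReal := ENNReal.ofReal (‖f z‖ ^ 2 * z.im ^ k)

lemma measurable_phi {N : ℕ} {k : ℤ} (f : CuspForm (Gamma0 N : Subgroup (GL (Fin 2) ℝ)) k) :
    Measurable (phi f) := by
  unfold phi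
  apply ENNReal.measurable_ofReal.comp
  apply Continuous.measurable
  have := cont_cusp f
  have h2 : Continuous (fun z : ℍ => z.im ^ k) :=
    UpperHalfPlane.continuous_im.zpow₀ k (fun z => Or.inl z.im_ne_zero)
  exact (this.norm.pow 2).mul h2

lemma norm_petersson_eq {N : ℕ} {k : ℤ} (f : CuspForm (Gamma0 N : Subgroup (GL (Fin 2) ℝ)) k)
    (z : ℍ) : ‖petersson k f f z‖ = ‖f z‖ ^ 2 * z.im ^ k := by
  unfold petersson
  rw [norm_mul, norm_mul, Complex.norm_conj, norm_zpow, Complex.norm_real, Real.norm_of_nonneg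
    z.im_pos.le]
  ring

lemma phi_smul {N : ℕ} [NeZero N] {k : ℤ} (f : CuspForm (Gamma0 N : Subgroup (GL (Fin 2) ℝ)) k)
    (γ : SL(2, ℤ)) (hγ : γ ∈ Gamma0 N) (z : ℍ) : phi f (γ • z) = phi f z := by
  unfold phi
  rw [← norm_petersson_eq, ← norm_petersson_eq]
  have : ‖petersson k f f ((γ : GL (Fin 2) ℝ) • z)‖ = ‖petersson k f f z‖ := by
    apply SlashInvariantFormClass.norm_petersson_smul (Γ := (Gamma0 N : Subgroup (GL (Fin 2) ℝ)))
    exact Subgroup.mem_map_of_mem _ hγ
  rw [← this]
  rfl

end Pool.Agent.W438.TW
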