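import Pool.Agent.W438.TW.RS2

set_option autoImplicit false

open Complex Filter Topology Set MeasureTheory UpperHalfPlane MatrixGroups CongruenceSubgroup
open W388

namespace Pool.Agent.W438.TW

/-- combine three bounds -/
lemma combine {σ p A b : ℝ} (hσ : 0 < σ) (hp : 0 ≤ p) (hA : 0 ≤ A) (hb : 0 < b) {P E1 E2 : ENNReal}
    (h1 : P ≤ ENNReal.ofReal p) (h2 : E1 ≤ ENNReal.ofReal (A / σ)) (h3 : ENNReal.ofReal b ≤ E2) :
    ENNReal.ofReal σ * (P * (E1 / E2)) ≤ ENNReal.ofReal (p * A / b) := by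
  calc ENNReal.ofReal σ * (P * (E1 / E2)) ≤
      ENNReal.ofReal σ * (ENNReal.ofReal p * (ENNReal.ofReal (A / σ) / ENNReal.ofReal b)) := by
        gcongr
    _ = ENNReal.ofReal (p * A / b) := by
        rw [← ENNReal.ofReal_div_of_pos hb, ← ENNReal.ofReal_mul hp, ← ENNReal.ofReal_mul hσ.le]
        congr 1
        field_simp

lemma sqrt3_le : Real.sqrt 3 / 2 ≤ 1 := by
  have : Real.sqrt 3 ≤ 2 := by
    rw [show (2 : ℝ) = Real.sqrt (2 ^ 2) by rw [Real.sqrt_sq (by norm_num)]]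
    exact Real.sqrt_le_sqrt (by norm_num)
  linarith

lemma sqrt3_ge : (1 : ℝ) / 2 ≤ Real.sqrt 3 / 2 := by
  have : (1 : ℝ) ≤ Real.sqrt 3 := by
    rw [show (1 : ℝ) = Real.sqrt 1 by simp]
    exact Real.sqrt_le_sqrt (by norm_num)
  linarith

lemma ptwise (h2 : StEisPairs) (h4 : StEisBd) (h5 : StCusp) (N : ℕ) [NeZero N] (k : ℤ)
    (f : CuspForm (Gamma0 N : Subgroup (GL (Fin 2) ℝ)) k) : ∃ D : ℝ, 0 < D ∧ ∀ z : ℍ, ∀ σ : ℝ,
    0 < σ → σ ≤ 1 → ENNReal.ofReal σ * (phi f z * (EisG N (1 + σ) z / EisG N 2 z)) ≤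
      ENNReal.ofReal (D * (1 / (1 + z.im ^ 2))) := by
  obtain ⟨C, hC, h4'⟩ := h4
  obtain ⟨C5, hC5, h5'⟩ := h5 N k f
  obtain ⟨c, hc, hfd⟩ := exists_fd h2 N
  refine ⟨2 * (16 * C5 * C / c) + 2 * (C * C5), by positivity, fun z σ h0 h1 => ?_⟩
  have hy : 0 < z.im := z.im_pos
  by_cases hy1 : 1 ≤ z.im
  · -- high up in the cusp
    set w : ℍ := ModularGroup.T ^ (-round z.re) • z with hw
    have hwe : w = ((-round z.re : ℤ) : ℝ) +ᵥ z := modular_T_zpow_smul z _
    have hwim : w.im = z.im := by rw [hwe, UpperHalfPlane.vadd_im]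
    have hwre : |w.re| ≤ 1 / 2 := by
      rw [hwe, UpperHalfPlane.vadd_re]
      have := abs_sub_round z.re
      rw [show ((-round z.re : ℤ) : ℝ) + z.re = z.re - round z.re by push_cast; ring]
      exact this
    have hwn : 1 ≤ ‖(w : ℂ)‖ := by
      calc (1 : ℝ) ≤ w.im := by rw [hwim]; exact hy1
        _ ≤ |(w : ℂ).im| := by rw [UpperHalfPlane.coe_im]; exact le_abs_self _
        _ ≤ ‖(w : ℂ)‖ := Complex.abs_im_le_norm _
    have hE1 : EisG N (1 + σ) z ≤ ENNReal.ofReal (C * z.im ^ 2 / σ) := by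
      refine (eisG_mono N _ z).trans ?_
      rw [← eisG_one_smul (1 + σ) z (ModularGroup.T ^ (-round z.re)), ← hw]
      refine (eisG_one_le h2 h4' w ?_ hwre hwn σ h0 h1).trans ?_
      · rw [hwim]; exact sqrt3_le.trans hy1
      · rw [hwim]
    have hE2 : ENNReal.ofReal (z.im ^ 2) ≤ EisG N 2 z := by
      have := eisG_ge h2 N z
      rwa [show ((2 : ℝ)) = ((2 : ℕ) : ℝ) by norm_num, Real.rpow_natCast,
        show ((2 : ℕ) : ℝ) = ((2 : ℝ)) by norm_num] at this
    have hP : phi f z ≤ ENNReal.ofReal (C5 / z.im ^ 8) := by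
      unfold phi
      apply ENNReal.ofReal_le_ofReal
      have := h5' 1 z (by linarith)
      rw [one_smul] at this
      rw [le_div_iff₀ (by positivity)]
      exact this
    refine (combine h0 (by positivity) (by positivity) (by positivity) hP hE1 hE2).trans ?_
    apply ENNReal.ofReal_le_ofReal
    have e1 : C5 / z.im ^ 8 * (C * z.im ^ 2) / z.im ^ 2 = C * C5 / z.im ^ 8 := by
      field_simp
    rw [e1]
    have e2 : C * C5 / z.im ^ 8 ≤ 2 * (C * C5) / (1 + z.im ^ 2) := by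
      rw [div_le_div_iff₀ (by positivity) (by positivity)]
      have h8 : z.im ^ 2 ≤ z.im ^ 8 := pow_le_pow_right₀ hy1 (by norm_num)
      have h80 : 1 ≤ z.im ^ 8 := one_le_pow₀ hy1
      have : 0 < C * C5 := by positivity
      nlinarith
    refine e2.trans ?_
    rw [mul_one_div]
    gcongr
    have : 0 < 2 * (16 * C5 * C / c) := by positivity
    linarith
  · push Not at hy1
    obtain ⟨ρ, w, hz, hv, hre, hn, hE2⟩ := hfd z
    have hv0 : 0 < w.im := w.im_pos
    have hvh : 1 / 2 ≤ w.im := sqrt3_ge.trans hv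
    have hE1 : EisG N (1 + σ) z ≤ ENNReal.ofReal (C * w.im ^ 2 / σ) := by
      refine (eisG_mono N _ z).trans ?_
      rw [hz, eisG_one_smul]
      exact eisG_one_le h2 h4' w hv hre hn σ h0 h1
    have hP : phi f z ≤ ENNReal.ofReal (C5 / w.im ^ 8) := by
      unfold phi
      apply ENNReal.ofReal_le_ofReal
      have := h5' ρ w hvh
      rw [le_div_iff₀ (by positivity), hz]
      exact this
    refine (combine h0 (by positivity) (by positivity) (by positivity) hP hE1 hE2).trans ?_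
    apply ENNReal.ofReal_le_ofReal
    have e1 : C5 / w.im ^ 8 * (C * w.im ^ 2) / (c / w.im ^ 2) = (C5 * C / c) / w.im ^ 4 := by
      field_simp
    rw [e1]
    have h4v : (1 : ℝ) / 16 ≤ w.im ^ 4 := by
      calc (1 : ℝ) / 16 = (1 / 2) ^ 4 := by norm_num
        _ ≤ w.im ^ 4 := by gcongr
    have e2 : (C5 * C / c) / w.im ^ 4 ≤ 16 * C5 * C / c := by
      rw [div_le_iff₀ (by positivity)]
      have hpos : 0 < C5 * C / c := by positivity
      have : 16 * C5 * C / c = 16 * (C5 * C / c) := by ring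
      rw [this]
      nlinarith
    refine e2.trans ?_
    rw [mul_one_div, le_div_iff₀ (by positivity)]
    have hy2 : z.im ^ 2 ≤ 1 := by nlinarith
    have hK : 0 < 16 * C5 * C / c := by positivity
    have hK2 : 0 < C * C5 := by positivity
    nlinarith

/-- the dominated integrand -/
lemma integrand_le (h2 : StEisPairs) (h4 : StEisBd) (h5 : StCusp) (N : ℕ) [NeZero N] (k : ℤ)
    (f : CuspForm (Gamma0 N : Subgroup (GL (Fin 2) ℝ)) k) : ∃ D : ℝ, 0 < D ∧ ∀ z : ℍ, ∀ σ : ℝ,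
    0 < σ → σ ≤ 1 → ENNReal.ofReal σ * (strip z * (phi f z * ENNReal.ofReal (z.im ^ (2 : ℝ)) *
      (EisG N (1 + σ) z / EisG N 2 z))) ≤
      strip z * ENNReal.ofReal (D * (z.im ^ 2 / (1 + z.im ^ 2))) := by
  obtain ⟨D, hD, h⟩ := ptwise h2 h4 h5 N k f
  refine ⟨D, hD, fun z σ h0 h1 => ?_⟩
  have h3 := h z σ h0 h1
  have e1 : ENNReal.ofReal σ * (strip z * (phi f z * ENNReal.ofReal (z.im ^ (2 : ℝ)) *
      (EisG N (1 + σ) z / EisG N 2 z))) = strip z * (ENNReal.ofReal (z.im ^ (2 : ℝ)) *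
        (ENNReal.ofReal σ * (phi f z * (EisG N (1 + σ) z / EisG N 2 z)))) := by ring
  rw [e1]
  gcongr
  calc ENNReal.ofReal (z.im ^ (2 : ℝ)) *
        (ENNReal.ofReal σ * (phi f z * (EisG N (1 + σ) z / EisG N 2 z)))
      ≤ ENNReal.ofReal (z.im ^ (2 : ℝ)) * ENNReal.ofReal (D * (1 / (1 + z.im ^ 2))) := by gcongr
    _ = ENNReal.ofReal (D * (z.im ^ 2 / (1 + z.im ^ 2))) := by
        rw [← ENNReal.ofReal_mul (by positivity)]
        congr 1
        rw [show ((2 : ℝ)) = ((2 : ℕ) : ℝ) by norm_num, Real.rpow_natCast]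
        ring

end Pool.Agent.W438.TW
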